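import Mathlib
import Pool.Agent.H3.TatePole.Ext

/-!
# A Bessel inequality for logarithmic mean values
-/

open NumberField IsDedekindDomain Filter Topology

namespace Pool.Agent.H1.Tate

open Pool.Agent.H3.TatePole

noncomputable section

variable {k : Type*} [Field k] [NumberField k]

lemma wsum_close {u w : HeightOneSpectrum (𝓞 k) → ℝ} (hbu : Bdd u) (hbw : Bdd w)
    (hfin : {v | u v ≠ w v}.Finite) : ∃ C : ℝ, ∀ t : ℝ, 1 < t → |wsum u t - wsum w t| ≤ C := by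
  obtain ⟨C, hC⟩ := hbu
  obtain ⟨D, hD⟩ := hbw
  refine ⟨∑ v ∈ hfin.toFinset, (C + D), fun s hs' => ?_⟩
  have h1 : wsum u s - wsum w s = ∑' v, (u v - w v) * nrm v ^ (-s) := by
    unfold wsum
    rw [← (Bdd.summable ⟨C, hC⟩ hs').tsum_sub (Bdd.summable ⟨D, hD⟩ hs')]
    exact tsum_congr fun v => by ring
  rw [h1, tsum_eq_sum (s := hfin.toFinset)]
  · refine (Finset.abs_sum_le_sum_abs _ _).trans (Finset.sum_le_sum fun v _ => ?_)
    rw [abs_mul]
    have h2 : |u v - w v| ≤ C + D := by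
      have := abs_sub (u v) (w v)
      have h3 := hC v
      have h4 := hD v
      linarith
    have h5 : |nrm v ^ (-s)| ≤ 1 := by
      rw [abs_of_nonneg (Real.rpow_nonneg (nrm_pos v).le _)]
      exact (Real.rpow_le_one_of_one_le_of_nonpos (by linarith [two_le_nrm v]) (by linarith))
    calc |u v - w v| * |nrm v ^ (-s)| ≤ (C + D) * 1 :=
          mul_le_mul h2 h5 (abs_nonneg _) ((abs_nonneg _).trans h2)
      _ = C + D := mul_one _
  · intro v hv
    have : u v = w v := by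
      by_contra hne
      exact hv (by simpa using hne)
    rw [this, sub_self, zero_mul]

/-- `O(1) / log (1 / (t - 1)) → 0` -/
lemma tendsto_zero_of_bounded {f : ℝ → ℝ} {C : ℝ} (h : ∀ t : ℝ, 1 < t → |f t| ≤ C) :
    Tendsto (fun t => f t / Lam t) (𝓝[>] 1) (𝓝 0) := by
  have hL := Lam_tendsto
  have hC : Tendsto (fun s => C / Lam s) (𝓝[>] 1) (𝓝 0) := hL.const_div_atTop C
  refine squeeze_zero_norm' ?_ hC
  filter_upwards [self_mem_nhdsWithin, hL.eventually_gt_atTop 0] with s hs hs2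
  rw [Real.norm_eq_abs, abs_div, abs_of_pos hs2]
  have := h s hs
  gcongr

/-- mean of a bounded function is bounded near `1` -/
lemma eventually_abs_mean_le {u : HeightOneSpectrum (𝓞 k) → ℝ} {B : ℝ} (hu : ∀ v, |u v| ≤ B) :
    ∀ᶠ t : ℝ in 𝓝[>] 1, |wsum u t / Lam t| ≤ 2 * B := by
  have hB0 : 0 ≤ B := by
    obtain ⟨M, hM⟩ := Ideal.exists_maximal (𝓞 k)
    exact (abs_nonneg _).trans (hu ⟨M, hM.isPrime, Ring.ne_bot_of_isMaximal_of_not_isField hM
        (RingOfIntegers.not_isField k)⟩)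
  have e3 : ∀ᶠ s : ℝ in 𝓝[>] 1, wsum (fun _ : HeightOneSpectrum (𝓞 k) => (1 : ℝ)) s / Lam s < 2 :=
      (hasMean_one (k := k)).eventually_lt_const (by norm_num)
  filter_upwards [self_mem_nhdsWithin, Lam_tendsto.eventually_gt_atTop 0, e3] with s h1 h2 h3
  have h1' : 1 < s := h1
  have hcb : Bdd u := ⟨B, hu⟩
  have h4 : wsum u s ≤ B * wsum (fun _ : HeightOneSpectrum (𝓞 k) => (1 : ℝ)) s := by
    rw [← wsum_const_mul]
    refine wsum_mono hcb ((Bdd.const B).mul (Bdd.const 1)) (fun v => ?_) h1'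
    rw [mul_one]; exact (abs_le.mp (hu v)).2
  have h5 : (-B) * wsum (fun _ : HeightOneSpectrum (𝓞 k) => (1 : ℝ)) s ≤ wsum u s := by
    rw [← wsum_const_mul]
    refine wsum_mono ((Bdd.const (-B)).mul (Bdd.const 1)) hcb (fun v => ?_) h1'
    rw [mul_one]; exact (abs_le.mp (hu v)).1
  rw [div_lt_iff₀ h2] at h3
  rw [abs_le]
  constructor
  · rw [le_div_iff₀ h2]
    nlinarith
  · rw [div_le_iff₀ h2]
    nlinarith

/-- Approximate Bessel inequality near `t = 1` for an orthonormal family of functions on the primes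
of `k`, with respect to logarithmic mean values. -/
theorem bessel_eventually {ι : Type*} [DecidableEq ι] (T : Finset ι)
    {e : ι → HeightOneSpectrum (𝓞 k) → ℝ}
    (he : ∀ i ∈ T, Bdd (e i))
    (horth : ∀ i ∈ T, ∀ j ∈ T, HasMean (𝓝[>] 1) (fun v => e i v * e j v) (if i = j then 1 else 0))
    {y : HeightOneSpectrum (𝓞 k) → ℝ} {B : ℝ} (hy : ∀ v, |y v| ≤ B) {x : ι → ℝ → ℝ}
    (hx : ∀ i ∈ T, Tendsto (fun t => x i t - wsum (fun v => y v * e i v) t / Lam t)
      (𝓝[>] 1) (𝓝 0)) {ε : ℝ} (hε : 0 < ε) :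
    ∀ᶠ t in 𝓝[>] 1, ∑ i ∈ T, (x i t) ^ 2 ≤ B ^ 2 + ε := by
  have hyb : Bdd y := ⟨B, hy⟩
  set m : ι → ℝ → ℝ := fun i t => wsum (fun v => y v * e i v) t / Lam t with hm
  set W : ℝ → ℝ := fun t => wsum (fun _ : HeightOneSpectrum (𝓞 k) => (1 : ℝ)) t / Lam t with hW
  set G : ι → ι → ℝ → ℝ := fun i j t => wsum (fun v => e i v * e j v) t / Lam t with hG
  set r : ι → ℝ → ℝ := fun i t => x i t - m i t with hr
  -- boundedness of the `m i`
  have hmb : ∀ i ∈ T, ∃ K : ℝ, ∀ᶠ t in 𝓝[>] 1, |m i t| ≤ K := by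
    intro i hi
    obtain ⟨C, hC⟩ := hyb.mul (he i hi)
    exact ⟨2 * C, eventually_abs_mean_le hC⟩
  have hprod0 : ∀ {f g : ℝ → ℝ}, (∃ K : ℝ, ∀ᶠ t in 𝓝[>] 1, |f t| ≤ K) →
      Tendsto g (𝓝[>] 1) (𝓝 0) → Tendsto (fun t => f t * g t) (𝓝[>] 1) (𝓝 0) := by
    rintro f g ⟨K, hK⟩ hg
    have h1 : Tendsto (fun t => K * |g t|) (𝓝[>] 1) (𝓝 0) := by
      simpa using (hg.abs).const_mul K
    refine squeeze_zero_norm' ?_ h1
    filter_upwards [hK] with t ht
    rw [Real.norm_eq_abs, abs_mul]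
    exact mul_le_mul_of_nonneg_right ht (abs_nonneg _)
  have hrt : ∀ i ∈ T, Tendsto (r i) (𝓝[>] 1) (𝓝 0) := hx
  have hGt : ∀ i ∈ T, ∀ j ∈ T, Tendsto (fun t => G i j t - (if i = j then 1 else 0)) (𝓝[>] 1) (𝓝 0) := by
    intro i hi j hj
    have := (horth i hi j hj).sub_const (if i = j then (1 : ℝ) else 0)
    rw [sub_self] at this
    exact this
  have hmm : ∀ i ∈ T, ∀ j ∈ T, ∃ K : ℝ, ∀ᶠ t in 𝓝[>] 1, |m i t * m j t| ≤ K := by
    intro i hi j hj
    obtain ⟨K, hK⟩ := hmb i hi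
    obtain ⟨K', hK'⟩ := hmb j hj
    refine ⟨K * K', ?_⟩
    filter_upwards [hK, hK'] with t h1 h2
    rw [abs_mul]
    exact mul_le_mul h1 h2 (abs_nonneg _) ((abs_nonneg _).trans h1)
  -- the majorant
  set Φ : ℝ → ℝ := fun t => B ^ 2 * W t +
    (∑ i ∈ T, ∑ j ∈ T, m i t * m j t * (G i j t - (if i = j then 1 else 0)) +
      (∑ i ∈ T, 2 * (m i t * r i t) + ∑ i ∈ T, r i t * r i t)) with hΦ
  have hΦt : Tendsto Φ (𝓝[>] 1) (𝓝 (B ^ 2)) := by
    have h1 : Tendsto (fun t => B ^ 2 * W t) (𝓝[>] 1) (𝓝 (B ^ 2 * 1)) :=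
      Tendsto.const_mul (B ^ 2) (show Tendsto W (𝓝[>] 1) (𝓝 1) from hasMean_one (k := k))
    have h2 : Tendsto (fun t => ∑ i ∈ T, ∑ j ∈ T, m i t * m j t *
        (G i j t - (if i = j then 1 else 0))) (𝓝[>] 1) (𝓝 0) := by
      have h0 := tendsto_finsetSum T fun i hi => tendsto_finsetSum T fun j hj =>
        hprod0 (hmm i hi j hj) (hGt i hi j hj)
      simpa using h0
    have h3 : Tendsto (fun t => ∑ i ∈ T, 2 * (m i t * r i t)) (𝓝[>] 1) (𝓝 0) := by
      have h0 := tendsto_finsetSum T fun i hi => (hprod0 (hmb i hi) (hrt i hi)).const_mul 2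
      simpa using h0
    have h4 : Tendsto (fun t => ∑ i ∈ T, r i t * r i t) (𝓝[>] 1) (𝓝 0) := by
      have h0 := tendsto_finsetSum T fun i hi => (hrt i hi).mul (hrt i hi)
      simpa using h0
    have h5 := h1.add (h2.add (h3.add h4))
    simpa using h5
  have hev := hΦt.eventually_le_const (show B ^ 2 < B ^ 2 + ε by linarith)
  filter_upwards [hev, self_mem_nhdsWithin, Lam_tendsto.eventually_gt_atTop 0] with t h1 h2 h3
  have h2' : 1 < t := h2
  refine le_trans ?_ h1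
  -- positivity of `∑ (y - ∑ m_i e_i)²`
  have hwW : wsum (fun _ : HeightOneSpectrum (𝓞 k) => (1 : ℝ)) t = W t * Lam t := by
    simp only [hW]; field_simp
  have hwm : ∀ i, wsum (fun v => y v * e i v) t = m i t * Lam t := by
    intro i; simp only [hm]; field_simp
  have hwG : ∀ i j, wsum (fun v => e i v * e j v) t = G i j t * Lam t := by
    intro i j; simp only [hG]; field_simp
  have hpos : 0 ≤ wsum (fun v => (y v - ∑ i ∈ T, m i t * e i v) ^ 2) t :=
    tsum_nonneg fun v => mul_nonneg (sq_nonneg _) (Real.rpow_nonneg (nrm_pos v).le _)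
  have hexp : (fun v : HeightOneSpectrum (𝓞 k) => (y v - ∑ i ∈ T, m i t * e i v) ^ 2) =
      fun v => y v * y v + ((∑ i ∈ T, (-2 * m i t) * (y v * e i v)) +
        ∑ i ∈ T, ∑ j ∈ T, (m i t * m j t) * (e i v * e j v)) := by
    funext v
    have e1 : (∑ i ∈ T, m i t * e i v) * (∑ i ∈ T, m i t * e i v) =
        ∑ i ∈ T, ∑ j ∈ T, (m i t * m j t) * (e i v * e j v) := by
      rw [Finset.sum_mul_sum]
      exact Finset.sum_congr rfl fun i _ => Finset.sum_congr rfl fun j _ => by ring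
    have e2 : ∑ i ∈ T, (-2 * m i t) * (y v * e i v) = -2 * y v * ∑ i ∈ T, m i t * e i v := by
      rw [Finset.mul_sum]
      exact Finset.sum_congr rfl fun i _ => by ring
    rw [← e1, e2]
    ring
  have hb1 : ∀ i ∈ T, Bdd (fun v => (-2 * m i t) * (y v * e i v)) := fun i hi =>
    (Bdd.const (-2 * m i t)).mul (hyb.mul (he i hi))
  have hb2 : ∀ i ∈ T, ∀ j ∈ T, Bdd (fun v => (m i t * m j t) * (e i v * e j v)) := fun i hi j hj =>
    (Bdd.const (m i t * m j t)).mul ((he i hi).mul (he j hj))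
  have hb3 : ∀ i ∈ T, Bdd (fun v => ∑ j ∈ T, (m i t * m j t) * (e i v * e j v)) := fun i hi =>
    Bdd.sum T (hb2 i hi)
  rw [hexp, wsum_add (hyb.mul hyb) ((Bdd.sum T hb1).add (Bdd.sum T hb3)) h2',
    wsum_add (Bdd.sum T hb1) (Bdd.sum T hb3) h2', wsum_sum T hb1 h2', wsum_sum T hb3 h2'] at hpos
  have e3 : ∑ i ∈ T, wsum (fun v => (-2 * m i t) * (y v * e i v)) t =
      -2 * (∑ i ∈ T, m i t ^ 2) * Lam t := by
    rw [Finset.mul_sum, Finset.sum_mul]
    refine Finset.sum_congr rfl fun i _ => ?_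
    rw [wsum_const_mul, hwm]
    ring
  have e4 : ∑ i ∈ T, wsum (fun v => ∑ j ∈ T, (m i t * m j t) * (e i v * e j v)) t =
      (∑ i ∈ T, ∑ j ∈ T, m i t * m j t * G i j t) * Lam t := by
    rw [Finset.sum_mul]
    refine Finset.sum_congr rfl fun i hi => ?_
    rw [wsum_sum T (hb2 i hi) h2', Finset.sum_mul]
    refine Finset.sum_congr rfl fun j hj => ?_
    rw [wsum_const_mul, hwG]
    ring
  have e5 : wsum (fun v => y v * y v) t ≤ B ^ 2 * W t * Lam t := by
    rw [mul_assoc, ← hwW, ← wsum_const_mul]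
    refine wsum_mono (hyb.mul hyb) ((Bdd.const _).mul (Bdd.const 1)) (fun v => ?_) h2'
    rw [mul_one, ← sq]
    exact sq_le_sq' (by linarith [(abs_le.mp (hy v)).1]) (abs_le.mp (hy v)).2
  rw [e3, e4] at hpos
  have e6 : 0 ≤ (B ^ 2 * W t - 2 * (∑ i ∈ T, m i t ^ 2) +
      ∑ i ∈ T, ∑ j ∈ T, m i t * m j t * G i j t) * Lam t := by nlinarith
  have e7 : 0 ≤ B ^ 2 * W t - 2 * (∑ i ∈ T, m i t ^ 2) +
      ∑ i ∈ T, ∑ j ∈ T, m i t * m j t * G i j t := nonneg_of_mul_nonneg_left e6 h3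
  have e8 : ∑ i ∈ T, ∑ j ∈ T, m i t * m j t * (G i j t - (if i = j then 1 else 0)) =
      ∑ i ∈ T, ∑ j ∈ T, m i t * m j t * G i j t - ∑ i ∈ T, m i t ^ 2 := by
    rw [← Finset.sum_sub_distrib]
    refine Finset.sum_congr rfl fun i hi => ?_
    have : ∑ j ∈ T, m i t * m j t * (G i j t - (if i = j then 1 else 0)) =
        ∑ j ∈ T, m i t * m j t * G i j t - ∑ j ∈ T, m i t * m j t * (if i = j then 1 else 0) := by
      rw [← Finset.sum_sub_distrib]
      exact Finset.sum_congr rfl fun j _ => by ring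
    rw [this]
    congr 1
    simp only [mul_ite, mul_one, mul_zero]
    rw [Finset.sum_ite_eq, if_pos hi]
    ring
  have e9 : ∑ i ∈ T, (x i t) ^ 2 = ∑ i ∈ T, m i t ^ 2 + (∑ i ∈ T, 2 * (m i t * r i t) +
      ∑ i ∈ T, r i t * r i t) := by
    rw [← Finset.sum_add_distrib, ← Finset.sum_add_distrib]
    refine Finset.sum_congr rfl fun i _ => ?_
    simp only [hr]
    ring
  rw [e9]
  simp only [hΦ]
  rw [e8]
  linarith

end

end Pool.Agent.H1.Tate
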