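import Mathlib

/-!
# The `H²` L-function of a product of two hyperelliptic curves

For polynomials `h₁, h₂` of odd degree over the integers of a number field `k`, let `C_i` be the
smooth projective model of `y ^ 2 = h_i(x)`. The Künneth formula gives
`H²(C₁ × C₂) = ℚ_ℓ(-1) ⊕ ℚ_ℓ(-1) ⊕ H¹(C₁) ⊗ H¹(C₂)`, so that the trace of the `n`-th power of the
Frobenius at a good prime with residue field of `q` elements is `2 q ^ n + A_n(C₁) A_n(C₂)`, where
`A_n(C) = q ^ n + 1 - #C(𝔽_{q ^ n})`.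
-/

open NumberField IsDedekindDomain Filter Topology Polynomial

namespace Pool.Agent.H1.Tate

noncomputable section

/-- The number of points over the extension of degree `n` of the finite field `F` on the smooth
projective model of `y ^ 2 = h(x)`, where `deg h` is odd: the solutions in the algebraic closure with
coordinates fixed by the `n`-th power of the Frobenius map, and the point at infinity. -/
def numPoints (F : Type*) [Field F] (h : F[X]) (n : ℕ) : ℕ :=
  Nat.card {z : AlgebraicClosure F × AlgebraicClosure F //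
    z.1 ^ (Nat.card F ^ n) = z.1 ∧ z.2 ^ (Nat.card F ^ n) = z.2 ∧ z.2 ^ 2 = aeval z.1 h} + 1

/-- `A_n = q ^ n + 1 - #C(𝔽_{q ^ n})`, the trace of the `n`-th power of Frobenius on `H¹` of the
curve `C : y ^ 2 = h(x)`. -/
def traceH1 (F : Type*) [Field F] (h : F[X]) (n : ℕ) : ℤ :=
  (Nat.card F : ℤ) ^ n + 1 - numPoints F h n

/-- The trace of the `n`-th power of Frobenius on `H²(C₁ × C₂)`, `C_i : y ^ 2 = h_i(x)`. -/
def traceH2 (F : Type*) [Field F] (h₁ h₂ : F[X]) (n : ℕ) : ℤ :=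
  2 * (Nat.card F : ℤ) ^ n + traceH1 F h₁ n * traceH1 F h₂ n

variable {k : Type*} [Field k] [NumberField k]

/-- The prime `v` is odd and the reduction of `h` at `v` is separable of the same degree as `h`. -/
def GoodAt (h : (𝓞 k)[X]) (v : HeightOneSpectrum (𝓞 k)) : Prop :=
  (2 : 𝓞 k) ∉ v.asIdeal ∧ (h.map (Ideal.Quotient.mk v.asIdeal)).Separable ∧
    (h.map (Ideal.Quotient.mk v.asIdeal)).natDegree = h.natDegree

/-- The trace of the `n`-th power of Frobenius at `v` on `H²(C₁ × C₂)`. -/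
def frobTrace (h₁ h₂ : (𝓞 k)[X]) (v : HeightOneSpectrum (𝓞 k)) (n : ℕ) : ℤ :=
  letI := Ideal.Quotient.field v.asIdeal
  traceH2 (𝓞 k ⧸ v.asIdeal) (h₁.map (Ideal.Quotient.mk v.asIdeal))
    (h₂.map (Ideal.Quotient.mk v.asIdeal)) n

open Classical in
/-- The Euler product `L₂(s, C₁ × C₂)` with `C_i : y ^ 2 = h_i(x)`. At a prime `v` with `q` residue
classes, good for both `h_i`, the factor is `det (1 - Frob q ^ (-s) | H²)⁻¹ =
exp (∑ n ≥ 1, tr (Frob ^ n | H²) q ^ (-n s) / n)`. At each of the finitely many other primes it is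
`∏ (1 - α q ^ (-s))⁻¹` over the members `α` of the multiset `bad v`. -/
def L2 (h₁ h₂ : (𝓞 k)[X]) (bad : HeightOneSpectrum (𝓞 k) → Multiset ℂ) (s : ℂ) : ℂ :=
  ∏' v : HeightOneSpectrum (𝓞 k),
    if GoodAt h₁ v ∧ GoodAt h₂ v then
      Complex.exp (∑' n : ℕ, (frobTrace h₁ h₂ v (n + 1) : ℂ) *
        ((Ideal.absNorm v.asIdeal : ℂ) ^ (-s)) ^ (n + 1) / ((n : ℂ) + 1))
    else
      (((bad v).map fun α => 1 - α * (Ideal.absNorm v.asIdeal : ℂ) ^ (-s)).prod)⁻¹

/-- `L` has a pole of order `r` at `s₀`: it extends meromorphically from the half plane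
`Re s > Re s₀` to a neighbourhood of `s₀`, and `(s - s₀) ^ r L(s)` is holomorphic and nonzero at `s₀`. -/
def HasPole (L : ℂ → ℂ) (s₀ : ℂ) (r : ℤ) : Prop :=
  ∃ g : ℂ → ℂ, AnalyticAt ℂ g s₀ ∧ g s₀ ≠ 0 ∧
    ∀ᶠ s in 𝓝[{s : ℂ | s₀.re < s.re}] s₀, L s = (s - s₀) ^ (-r) * g s

end

end Pool.Agent.H1.Tate
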