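import Mathlib
import Pool.Agent.H3.TatePole.Ext

/-!
# Splitting of primes in a quadratic extension, and the mean value of a quadratic character
-/

open NumberField IsDedekindDomain Filter Topology Polynomial

namespace Pool.Agent.H1.Tate

open Pool.Agent.H3.TatePole

universe u

noncomputable section

section Field

variable {k : Type*} [Field k] [NumberField k]

instance (v : HeightOneSpectrum (𝓞 k)) : Finite (𝓞 k ⧸ v.asIdeal) :=
  Ideal.finiteQuotientOfFreeOfNeBot _ v.ne_bot

/-- the quadratic residue symbol `(d / v)`; it is `0` if `v ∣ 2` -/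
def chiV (d : 𝓞 k) (v : HeightOneSpectrum (𝓞 k)) : ℤ := by
  classical
  exact if (2 : 𝓞 k) ∈ v.asIdeal then 0 else
    letI := Ideal.Quotient.field v.asIdeal
    letI := Fintype.ofFinite (𝓞 k ⧸ v.asIdeal)
    quadraticChar (𝓞 k ⧸ v.asIdeal) (Ideal.Quotient.mk v.asIdeal d)

end Field

section Quadratic

variable {k K : Type*} [Field k] [NumberField k] [Field K] [NumberField K] [Algebra k K]

/-- Homomorphisms `𝓞 K → F` over `𝓞 k`, for `K = k(s)`, `s² = D`, and a field `F` in which `2 D` is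
invertible, correspond to square roots of `D` in `F`. -/
lemma bijective_eval (D : 𝓞 k) (s : 𝓞 K) (hs : s ^ 2 = algebraMap (𝓞 k) (𝓞 K) D)
    (hspan : ∀ x : K, ∃ a b : k, x = algebraMap k K a + algebraMap k K b * algebraMap (𝓞 K) K s)
    (htr : Algebra.trace k K (algebraMap (𝓞 K) K s) = 0) (hfr : Module.finrank k K = 2)
    (F : Type*) [Field F] [Algebra (𝓞 k) F] (h2 : (2 : F) ≠ 0)
    (hD : algebraMap (𝓞 k) F D ≠ 0) :
    Function.Bijective (fun φ : 𝓞 K →ₐ[𝓞 k] F =>
      (⟨φ s, by rw [← map_pow, hs, φ.commutes]⟩ : {r : F // r ^ 2 = algebraMap (𝓞 k) F D})) := by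
  have hkinj : Function.Injective (algebraMap (𝓞 k) k) := RingOfIntegers.coe_injective
  have hKinj : Function.Injective (algebraMap (𝓞 K) K) := RingOfIntegers.coe_injective
  have h2k : algebraMap (𝓞 k) k 2 = 2 := map_ofNat _ 2
  have h2K : algebraMap (𝓞 k) (𝓞 K) 2 = 2 := map_ofNat _ 2
  set D' : k := algebraMap (𝓞 k) k D with hD'
  set s' : K := algebraMap (𝓞 K) K s with hs'
  have hsD : s' ^ 2 = algebraMap k K D' := by
    rw [hs', ← map_pow, hs]
    rfl
  -- the trace, on integers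
  let t : 𝓞 K → 𝓞 k := fun x => Algebra.intTrace (𝓞 k) (𝓞 K) x
  have ht : ∀ x, algebraMap (𝓞 k) k (t x) = Algebra.trace k K (algebraMap (𝓞 K) K x) := fun x =>
    Algebra.algebraMap_intTrace (A := 𝓞 k) (K := k) (L := K) (B := 𝓞 K) x
  have htadd : ∀ x y, t (x + y) = t x + t y := fun x y => map_add _ x y
  have htrval : ∀ a b : k, Algebra.trace k K (algebraMap k K a + algebraMap k K b * s') = 2 * a := by
    intro a b
    rw [map_add, Algebra.trace_algebraMap, hfr, ← Algebra.smul_def, map_smul, htr]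
    simp
  have ht1 : ∀ x a b, algebraMap (𝓞 K) K x = algebraMap k K a + algebraMap k K b * s' →
      algebraMap (𝓞 k) k (t x) = 2 * a := by
    intro x a b h
    rw [ht, h, htrval]
  have ht2 : ∀ x a b, algebraMap (𝓞 K) K x = algebraMap k K a + algebraMap k K b * s' →
      algebraMap (𝓞 k) k (t (x * s)) = 2 * (b * D') := by
    intro x a b h
    apply ht1 _ _ a
    rw [map_mul, h, ← hs', add_mul, mul_assoc, ← sq, hsD, map_mul]
    ring
  have hexp : ∀ x : 𝓞 K, (algebraMap (𝓞 k) (𝓞 K) (2 * D)) * x =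
      algebraMap (𝓞 k) (𝓞 K) (D * t x) + algebraMap (𝓞 k) (𝓞 K) (t (x * s)) * s := by
    intro x
    apply hKinj
    obtain ⟨a, b, hab⟩ := hspan (algebraMap (𝓞 K) K x)
    have e1 := ht1 x a b hab
    have e2 := ht2 x a b hab
    have hc : ∀ z : 𝓞 k, algebraMap (𝓞 K) K (algebraMap (𝓞 k) (𝓞 K) z) =
      algebraMap k K (algebraMap (𝓞 k) k z) := fun z => rfl
    have f1 : algebraMap (𝓞 K) K (algebraMap (𝓞 k) (𝓞 K) (2 * D)) = 2 * algebraMap k K D' := by
      rw [hc, map_mul, h2k, map_mul, map_ofNat]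
    have f2 : algebraMap (𝓞 K) K (algebraMap (𝓞 k) (𝓞 K) (D * t x)) =
        algebraMap k K D' * (2 * algebraMap k K a) := by
      rw [hc, map_mul, e1, map_mul, map_mul, map_ofNat]
    have f3 : algebraMap (𝓞 K) K (algebraMap (𝓞 k) (𝓞 K) (t (x * s))) =
        2 * (algebraMap k K b * algebraMap k K D') := by
      rw [hc, e2, map_mul, map_mul, map_ofNat]
    rw [map_mul, map_add, map_mul (algebraMap (𝓞 K) K) _ s, f1, f2, f3, hab, ← hs']
    ring
  -- identities in `𝓞 k`
  have hid1 : ∀ x y, 2 * D * (D * t (x * y)) = D * t x * (D * t y) + t (x * s) * t (y * s) * D := by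
    intro x y
    apply hkinj
    obtain ⟨a, b, hab⟩ := hspan (algebraMap (𝓞 K) K x)
    obtain ⟨c, d, hcd⟩ := hspan (algebraMap (𝓞 K) K y)
    have e3 : algebraMap (𝓞 K) K (x * y) = algebraMap k K (a * c + b * d * D') +
        algebraMap k K (a * d + b * c) * s' := by
      rw [map_mul, hab, hcd]
      simp only [map_add, map_mul]
      rw [← hsD]
      ring
    simp only [map_mul, map_add, map_ofNat]
    rw [ht1 _ _ _ e3, ht1 _ _ _ hab, ht1 _ _ _ hcd, ht2 _ _ _ hab, ht2 _ _ _ hcd, ← hD']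
    ring
  have hid2 : ∀ x y, 2 * D * (t (x * y * s)) = D * t x * t (y * s) + t (x * s) * (D * t y) := by
    intro x y
    apply hkinj
    obtain ⟨a, b, hab⟩ := hspan (algebraMap (𝓞 K) K x)
    obtain ⟨c, d, hcd⟩ := hspan (algebraMap (𝓞 K) K y)
    have e3 : algebraMap (𝓞 K) K (x * y) = algebraMap k K (a * c + b * d * D') +
        algebraMap k K (a * d + b * c) * s' := by
      rw [map_mul, hab, hcd]
      simp only [map_add, map_mul]
      rw [← hsD]
      ring
    simp only [map_mul, map_add, map_ofNat]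
    rw [ht2 _ _ _ e3, ht1 _ _ _ hab, ht1 _ _ _ hcd, ht2 _ _ _ hab, ht2 _ _ _ hcd, ← hD']
    ring
  set δ : F := algebraMap (𝓞 k) F D with hδ
  constructor
  · intro φ ψ h
    have h' : φ s = ψ s := congrArg Subtype.val h
    ext x
    have e1 := congrArg φ (hexp x)
    have e2 := congrArg ψ (hexp x)
    simp only [map_mul, map_add, AlgHom.commutes, map_ofNat] at e1 e2
    rw [h'] at e1
    apply mul_left_cancel₀ (mul_ne_zero h2 hD)
    rw [e1, e2]
  · rintro ⟨r, hr⟩
    let φ : 𝓞 K →ₐ[𝓞 k] F :=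
      { toFun := fun x => (2 * δ)⁻¹ * (δ * algebraMap (𝓞 k) F (t x) +
          algebraMap (𝓞 k) F (t (x * s)) * r)
        map_one' := by
          have e1 : algebraMap (𝓞 K) K (1 : 𝓞 K) = algebraMap k K 1 + algebraMap k K 0 * s' := by
            simp
          have e2 : t 1 = 2 := by
            apply hkinj; rw [ht1 _ _ _ e1, h2k, mul_one]
          have e3 : t (1 * s) = 0 := by
            apply hkinj; rw [ht2 _ _ _ e1]; simp
          rw [e2, e3]
          simp only [map_ofNat, map_zero, zero_mul, add_zero]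
          field_simp
        map_mul' := fun x y => by
          have e1 := congrArg (algebraMap (𝓞 k) F) (hid1 x y)
          have e2 := congrArg (algebraMap (𝓞 k) F) (hid2 x y)
          simp only [map_mul, map_add, map_ofNat] at e1 e2
          rw [← hδ] at e1 e2 hr
          have h3 : 2 * δ ≠ 0 := mul_ne_zero h2 hD
          field_simp
          linear_combination e1 + r * e2 + 
            (algebraMap (𝓞 k) F (t (x * s)) * algebraMap (𝓞 k) F (t (y * s))) * (-hr)
        map_zero' := by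
          have e2 : t 0 = 0 := map_zero _
          rw [zero_mul, e2]
          simp
        map_add' := fun x y => by
          rw [add_mul, htadd, htadd, map_add, map_add]
          ring
        commutes' := fun c => by
          have e1 : algebraMap (𝓞 K) K (algebraMap (𝓞 k) (𝓞 K) c) =
              algebraMap k K (algebraMap (𝓞 k) k c) + algebraMap k K 0 * s' := by
            rw [map_zero, zero_mul, add_zero]
            rfl
          have e2 : t (algebraMap (𝓞 k) (𝓞 K) c) = 2 * c := by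
            apply hkinj; rw [ht1 _ _ _ e1, map_mul, h2k]
          have e3 : t (algebraMap (𝓞 k) (𝓞 K) c * s) = 0 := by
            apply hkinj; rw [ht2 _ _ _ e1]; simp
          rw [e2, e3]
          simp only [map_mul, map_ofNat, map_zero, zero_mul, add_zero]
          field_simp }
    refine ⟨φ, Subtype.ext ?_⟩
    change (2 * δ)⁻¹ * (δ * algebraMap (𝓞 k) F (t s) + algebraMap (𝓞 k) F (t (s * s)) * r) = r
    have e1 : algebraMap (𝓞 K) K s = algebraMap k K 0 + algebraMap k K 1 * s' := by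
      simp [hs']
    have e2 : t s = 0 := by
      apply hkinj; rw [ht1 _ _ _ e1]; simp
    have e3 : t (s * s) = 2 * D := by
      apply hkinj; rw [ht2 _ _ _ e1, map_mul, h2k, one_mul]
    rw [e2, e3]
    simp only [map_mul, map_ofNat, map_zero, mul_zero, zero_add]
    rw [← hδ]
    field_simp

end Quadratic

section Mean

variable {k : Type u} [Field k] [NumberField k]

/-- existence of the quadratic extension `k(√D)` -/
lemma exists_quadratic (D : 𝓞 k) (hD : ¬ IsSquare (algebraMap (𝓞 k) k D)) :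
    ∃ (K : Type u) (_ : Field K) (_ : NumberField K) (_ : Algebra k K) (s : 𝓞 K),
      s ^ 2 = algebraMap (𝓞 k) (𝓞 K) D ∧
      (∀ x : K, ∃ a b : k, x = algebraMap k K a + algebraMap k K b * algebraMap (𝓞 K) K s) ∧
      Algebra.trace k K (algebraMap (𝓞 K) K s) = 0 ∧ Module.finrank k K = 2 := by
  set D' : k := algebraMap (𝓞 k) k D with hD'
  set p : k[X] := X ^ 2 - C D' with hp
  have hmonic : p.Monic := monic_X_pow_sub_C D' two_ne_zero
  have hdeg : p.natDegree = 2 := natDegree_X_pow_sub_C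
  have hirr : Irreducible p := by
    rw [Polynomial.irreducible_iff_roots_eq_zero_of_degree_le_three (by omega) (by omega)]
    by_contra hne
    obtain ⟨x, hx⟩ := Multiset.exists_mem_of_ne_zero hne
    apply hD
    rw [mem_roots hmonic.ne_zero] at hx
    refine ⟨x, ?_⟩
    have : x ^ 2 - D' = 0 := by simpa [hp] using hx
    rw [← sub_eq_zero.mp this, sq]
  have : Fact (Irreducible p) := ⟨hirr⟩
  let K := AdjoinRoot p
  have : FiniteDimensional k K := hmonic.finite_adjoinRoot
  have : CharZero K := charZero_of_injective_algebraMap (algebraMap k K).injective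
  have : NumberField K := NumberField.of_module_finite k K
  let pb : PowerBasis k K := AdjoinRoot.powerBasis hirr.ne_zero
  have hdim : pb.dim = 2 := by
    rw [AdjoinRoot.powerBasis_dim]; exact hdeg
  have hfr : Module.finrank k K = 2 := by rw [pb.finrank, hdim]
  set r : K := AdjoinRoot.root p with hr
  have hr2 : r ^ 2 = algebraMap k K D' := by
    have : aeval r p = 0 := by rw [hr, AdjoinRoot.aeval_eq, AdjoinRoot.mk_self]
    simp only [hp, map_sub, map_pow, aeval_X, aeval_C] at this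
    exact sub_eq_zero.mp this
  have hrint : IsIntegral ℤ r := by
    have h1 : IsIntegral ℤ (algebraMap k K D') := D.2.map (algebraMap k K).toIntAlgHom
    rw [← hr2] at h1
    exact h1.of_pow (by norm_num)
  have hgen : pb.gen = r := AdjoinRoot.powerBasis_gen hirr.ne_zero
  have htr : Algebra.trace k K r = 0 := by
    rw [← hgen, PowerBasis.trace_gen_eq_nextCoeff_minpoly]
    have hmin : minpoly k pb.gen = p := by
      rw [hgen]
      exact (AdjoinRoot.minpoly_root hirr.ne_zero).trans (by rw [hmonic.leadingCoeff]; simp)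
    rw [hmin, nextCoeff_of_natDegree_pos (by omega), hdeg]
    simp [hp, coeff_X_pow]
  refine ⟨K, inferInstance, inferInstance, inferInstance, ⟨r, hrint⟩, ?_, ?_, htr, hfr⟩
  · apply RingOfIntegers.coe_injective
    exact hr2
  · intro x
    obtain ⟨q, hq, hx⟩ := pb.exists_eq_aeval x
    rw [hdim] at hq
    refine ⟨q.coeff 0, q.coeff 1, ?_⟩
    rw [hx, hgen, aeval_eq_sum_range' (n := 2) (by omega)]
    simp only [Finset.sum_range_succ, Finset.sum_range_zero, zero_add, pow_zero, pow_one,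
      Algebra.smul_def, mul_one]
    rfl

lemma chiV_of_notMem {D : 𝓞 k} {v : HeightOneSpectrum (𝓞 k)} (h2 : (2 : 𝓞 k) ∉ v.asIdeal) :
    chiV D v = (letI := Classical.decEq (𝓞 k ⧸ v.asIdeal)
      letI := Ideal.Quotient.field v.asIdeal
      letI := Fintype.ofFinite (𝓞 k ⧸ v.asIdeal)
      quadraticChar (𝓞 k ⧸ v.asIdeal) (Ideal.Quotient.mk v.asIdeal D)) := by
  unfold chiV
  rw [if_neg h2]

lemma chiV_mul (a b : 𝓞 k) (v : HeightOneSpectrum (𝓞 k)) : chiV (a * b) v = chiV a v * chiV b v := by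
  unfold chiV
  split_ifs
  · simp
  · rw [map_mul, map_mul]

lemma two_ne_zero_quot {v : HeightOneSpectrum (𝓞 k)} (h2 : (2 : 𝓞 k) ∉ v.asIdeal) :
    (2 : 𝓞 k ⧸ v.asIdeal) ≠ 0 := by
  intro h
  apply h2
  rw [← Ideal.Quotient.eq_zero_iff_mem]
  rw [map_ofNat]
  exact h

lemma chiV_sq {D : 𝓞 k} {v : HeightOneSpectrum (𝓞 k)} (h2 : (2 : 𝓞 k) ∉ v.asIdeal)
    (hD : D ∉ v.asIdeal) : chiV D v ^ 2 = 1 := by
  rw [chiV_of_notMem h2]
  letI := Classical.decEq (𝓞 k ⧸ v.asIdeal)
  letI := Ideal.Quotient.field v.asIdeal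
  letI := Fintype.ofFinite (𝓞 k ⧸ v.asIdeal)
  exact quadraticChar_sq_one (fun h => hD (Ideal.Quotient.eq_zero_iff_mem.mp h))

lemma abs_chiV_le (D : 𝓞 k) (v : HeightOneSpectrum (𝓞 k)) : |(chiV D v : ℝ)| ≤ 1 := by
  by_cases h2 : (2 : 𝓞 k) ∈ v.asIdeal
  · simp [chiV, h2]
  · rw [chiV_of_notMem h2]
    letI := Classical.decEq (𝓞 k ⧸ v.asIdeal)
    letI := Ideal.Quotient.field v.asIdeal
    letI := Fintype.ofFinite (𝓞 k ⧸ v.asIdeal)
    by_cases h : (Ideal.Quotient.mk v.asIdeal D) = 0
    · rw [h, quadraticChar_zero]; simp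
    · rcases quadraticChar_dichotomy h with h | h
      · rw [h]; simp
      · rw [h]; simp

lemma chiV_bdd (D : 𝓞 k) : Bdd (fun v : HeightOneSpectrum (𝓞 k) => (chiV D v : ℝ)) :=
  ⟨1, abs_chiV_le D⟩

lemma finite_mem {x : 𝓞 k} (hx : x ≠ 0) : {v : HeightOneSpectrum (𝓞 k) | x ∈ v.asIdeal}.Finite := by
  have hI : Ideal.span {x} ≠ ⊥ := by
    rw [Ne, Ideal.span_singleton_eq_bot]
    exact hx
  refine (Ideal.finite_factors hI).subset fun v hv => ?_
  change v.asIdeal ∣ _
  rw [Ideal.dvd_span_singleton]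
  exact hv

/-- the quadratic character of a nonsquare has mean value zero -/
lemma chiV_mean {D : 𝓞 k} (hD : ¬ IsSquare (algebraMap (𝓞 k) k D)) :
    HasMean (𝓝[>] 1) (fun v : HeightOneSpectrum (𝓞 k) => (chiV D v : ℝ)) 0 := by
  obtain ⟨K, i1, i2, i3, s, hs, hspan, htr, hfr⟩ := exists_quadratic D hD
  have hD0 : D ≠ 0 := by
    rintro rfl
    apply hD
    exact ⟨0, by simp⟩
  have h1 := (degOne_mean k K).add le_rfl (degOne_bdd k K) (Bdd.const (-1))
    (hasMean_one.const_mul (-1) |> fun h => by simpa using h)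
  rw [add_neg_cancel] at h1
  refine hasMean_congr ((degOne_bdd k K).add (Bdd.const (-1))) (chiV_bdd D) ?_ h1
  refine ((finite_mem (two_ne_zero (α := 𝓞 k))).union (finite_mem hD0)).subset fun v hv => ?_
  by_contra hcon
  simp only [Set.mem_union, Set.mem_setOf_eq, not_or] at hcon
  obtain ⟨h2, hDv⟩ := hcon
  apply hv
  letI := Classical.decEq (𝓞 k ⧸ v.asIdeal)
  letI := Ideal.Quotient.field v.asIdeal
  letI := Fintype.ofFinite (𝓞 k ⧸ v.asIdeal)
  have h2' := two_ne_zero_quot h2
  have hD' : algebraMap (𝓞 k) (𝓞 k ⧸ v.asIdeal) D ≠ 0 := fun h =>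
    hDv (Ideal.Quotient.eq_zero_iff_mem.mp h)
  have hbij := bijective_eval D s hs hspan htr hfr (𝓞 k ⧸ v.asIdeal) h2' hD'
  have hcard : degOne k K v = Nat.card {r : 𝓞 k ⧸ v.asIdeal // r ^ 2 =
      algebraMap (𝓞 k) (𝓞 k ⧸ v.asIdeal) D} := by
    rw [degOne_eq]
    exact Nat.card_congr (Equiv.ofBijective _ hbij)
  have hF : ringChar (𝓞 k ⧸ v.asIdeal) ≠ 2 := by
    intro h
    apply h2'
    have := ringChar.Nat.cast_ringChar (R := 𝓞 k ⧸ v.asIdeal)
    rw [h] at this
    exact_mod_cast this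
  have hq := quadraticChar_card_sqrts hF (algebraMap (𝓞 k) (𝓞 k ⧸ v.asIdeal) D)
  rw [chiV_of_notMem h2]
  have e : (degOne k K v : ℤ) = quadraticChar (𝓞 k ⧸ v.asIdeal)
      (algebraMap (𝓞 k) (𝓞 k ⧸ v.asIdeal) D) + 1 := by
    rw [← hq, hcard]
    norm_cast
    rw [Nat.card_eq_fintype_card, Set.toFinset_card]
    rfl
  have e' : (degOne k K v : ℝ) = ((quadraticChar (𝓞 k ⧸ v.asIdeal)
      (algebraMap (𝓞 k) (𝓞 k ⧸ v.asIdeal) D) : ℤ) : ℝ) + 1 := by exact_mod_cast e
  change (degOne k K v : ℝ) + -1 = _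
  rw [e']
  change _ = ((quadraticChar (𝓞 k ⧸ v.asIdeal) (algebraMap (𝓞 k) (𝓞 k ⧸ v.asIdeal) D) : ℤ) : ℝ)
  ring

end Mean

end

end Pool.Agent.H1.Tate
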