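import Pool.Agent.H1.Tate.Defs
import Pool.Agent.H1.Tate.Quad
import Pool.Agent.H1.Weil.Points
import Pool.Agent.H3.TatePole.Weights

/-!
# The logarithm of the `H²` L-function of a product of two hyperelliptic curves near `s = 2`
-/

open NumberField IsDedekindDomain Filter Topology Polynomial

namespace Pool.Agent.H1.Tate

open Pool.Agent.H3.TatePole Pool.Agent.H1.Weil

noncomputable section

section Finite

lemma traceH1_eq {F : Type*} [Field F] [Fintype F] [DecidableEq F] (hF : ringChar F ≠ 2)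
    (h : F[X]) {n : ℕ} (hn : 0 < n) :
    traceH1 F h n = - SS h (AlgebraicClosure F) n := by
  have h1 := card_affinePoints (f := h) (L := AlgebraicClosure F) hF hn
  unfold traceH1 numPoints
  have h2 : (Nat.card {z : AlgebraicClosure F × AlgebraicClosure F //
    z.1 ^ (Nat.card F ^ n) = z.1 ∧ z.2 ^ (Nat.card F ^ n) = z.2 ∧ z.2 ^ 2 = aeval z.1 h} : ℤ) =
    (Nat.card F : ℤ) ^ n + SS h (AlgebraicClosure F) n := h1
  push_cast
  rw [h2]
  ring

lemma abs_traceH1_le {F : Type*} [Field F] [Finite F] (hF : ringChar F ≠ 2)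
    {h : F[X]} {g : ℕ} (hh : h.natDegree = 2 * g + 1) {n : ℕ} (hn : 0 < n) :
    |(traceH1 F h n : ℝ)| ≤ 2 * g * Real.sqrt (Nat.card F) ^ n := by
  classical
  cases nonempty_fintype F
  rw [traceH1_eq hF h hn]
  push_cast
  rw [abs_neg]
  exact norm_SS_le hF hh hn

lemma traceH1_C_mul {F : Type*} [Field F] [Fintype F] [DecidableEq F] (hF : ringChar F ≠ 2)
    {h : F[X]} {d : F} (hd : d ≠ 0) {n : ℕ} (hn : 0 < n) :
    traceH1 F (C d * h) n = quadraticChar F d ^ n * traceH1 F h n := by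
  rw [traceH1_eq hF _ hn, traceH1_eq hF _ hn, SS_C_mul d hd hn]
  ring

lemma abs_traceH2_le {F : Type*} [Field F] [Finite F] (hF : ringChar F ≠ 2)
    {h₁ h₂ : F[X]} {g₁ g₂ : ℕ} (hh₁ : h₁.natDegree = 2 * g₁ + 1) (hh₂ : h₂.natDegree = 2 * g₂ + 1)
    {n : ℕ} (hn : 0 < n) :
    |(traceH2 F h₁ h₂ n : ℝ)| ≤ (2 + 4 * g₁ * g₂) * (Nat.card F : ℝ) ^ n := by
  have h1 := abs_traceH1_le hF hh₁ hn
  have h2 := abs_traceH1_le hF hh₂ hn
  have h3 : Real.sqrt (Nat.card F) ^ n * Real.sqrt (Nat.card F) ^ n = (Nat.card F : ℝ) ^ n := by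
    rw [← mul_pow, Real.mul_self_sqrt (by positivity)]
  unfold traceH2
  push_cast
  refine (abs_add_le _ _).trans ?_
  rw [abs_mul (traceH1 F h₁ n : ℝ), abs_of_nonneg (by positivity : (0 : ℝ) ≤ 2 * (Nat.card F : ℝ) ^ n)]
  have h4 : |(traceH1 F h₁ n : ℝ)| * |(traceH1 F h₂ n : ℝ)| ≤
      (2 * g₁ * Real.sqrt (Nat.card F) ^ n) * (2 * g₂ * Real.sqrt (Nat.card F) ^ n) :=
    mul_le_mul h1 h2 (abs_nonneg _) (by positivity)
  have h5 : (2 * g₁ * Real.sqrt (Nat.card F) ^ n) * (2 * g₂ * Real.sqrt (Nat.card F) ^ n) =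
      4 * g₁ * g₂ * (Nat.card F : ℝ) ^ n := by
    rw [← h3]; ring
  rw [h5] at h4
  linarith

end Finite

variable {k : Type*} [Field k] [NumberField k]

lemma nrm_eq_card (v : HeightOneSpectrum (𝓞 k)) : nrm v = (Nat.card (𝓞 k ⧸ v.asIdeal) : ℝ) := by
  unfold nrm
  rw [Ideal.absNorm_apply, Submodule.cardQuot_apply]

lemma ringChar_ne_two {v : HeightOneSpectrum (𝓞 k)} (h2 : (2 : 𝓞 k) ∉ v.asIdeal) :
    ringChar (𝓞 k ⧸ v.asIdeal) ≠ 2 := by
  intro h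
  apply two_ne_zero_quot h2
  have := ringChar.Nat.cast_ringChar (R := 𝓞 k ⧸ v.asIdeal)
  rw [h] at this
  exact_mod_cast this

/-- `A_1(v) / √q_v` at good primes and `0` elsewhere -/
def aV (h : (𝓞 k)[X]) (v : HeightOneSpectrum (𝓞 k)) : ℝ := by
  classical
  exact if GoodAt h v then
    (letI := Ideal.Quotient.field v.asIdeal
     (traceH1 (𝓞 k ⧸ v.asIdeal) (h.map (Ideal.Quotient.mk v.asIdeal)) 1 : ℝ)) / Real.sqrt (nrm v)
    else 0

lemma abs_aV_le {h : (𝓞 k)[X]} {g : ℕ} (hh : h.natDegree = 2 * g + 1)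
    (v : HeightOneSpectrum (𝓞 k)) : |aV h v| ≤ 2 * g := by
  unfold aV
  split_ifs with hg
  · letI := Ideal.Quotient.field v.asIdeal
    have h1 := abs_traceH1_le (F := 𝓞 k ⧸ v.asIdeal) (ringChar_ne_two hg.1)
      (hg.2.2.trans hh) (n := 1) one_pos
    rw [pow_one, ← nrm_eq_card] at h1
    rw [abs_div, abs_of_pos (Real.sqrt_pos.mpr (nrm_pos v)), div_le_iff₀ (Real.sqrt_pos.mpr (nrm_pos v))]
    exact h1
  · rw [abs_zero]; positivity

lemma aV_bdd {h : (𝓞 k)[X]} {g : ℕ} (hh : h.natDegree = 2 * g + 1) : Bdd (aV h) :=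
  ⟨2 * g, abs_aV_le hh⟩

/-- the bad primes of a separable polynomial are finite in number -/
lemma finite_bad {h : (𝓞 k)[X]} (hsep : (h.map (algebraMap (𝓞 k) k)).Separable) :
    {v : HeightOneSpectrum (𝓞 k) | ¬ GoodAt h v}.Finite := by
  have hinj : Function.Injective (algebraMap (𝓞 k) k) := RingOfIntegers.coe_injective
  have hh0 : h ≠ 0 := by
    rintro rfl
    rw [Polynomial.map_zero] at hsep
    exact Polynomial.not_separable_zero hsep
  obtain ⟨a, b, hab⟩ := hsep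
  obtain ⟨ca, hca0, hca⟩ := IsLocalization.integerNormalization_spec (nonZeroDivisors (𝓞 k)) a
  obtain ⟨cb, hcb0, hcb⟩ := IsLocalization.integerNormalization_spec (nonZeroDivisors (𝓞 k)) b
  set A := IsLocalization.integerNormalization (nonZeroDivisors (𝓞 k)) a with hA
  set B := IsLocalization.integerNormalization (nonZeroDivisors (𝓞 k)) b with hB
  replace hca0 : ca ≠ 0 := nonZeroDivisors.ne_zero hca0
  replace hcb0 : cb ≠ 0 := nonZeroDivisors.ne_zero hcb0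
  have hsm : ∀ (c : 𝓞 k) (p : k[X]), c • p = C (algebraMap (𝓞 k) k c) * p := fun c p => by
    rw [← Polynomial.smul_eq_C_mul]
    exact (algebraMap_smul k c p).symm
  replace hca := hca.trans (hsm ca a)
  replace hcb := hcb.trans (hsm cb b)
  have key : C cb * A * h + C ca * B * derivative h = C (ca * cb) := by
    apply Polynomial.map_injective _ hinj
    rw [Polynomial.map_add, Polynomial.map_mul, Polynomial.map_mul, Polynomial.map_mul,
      Polynomial.map_mul, hca, hcb, ← derivative_map, map_C, map_C, map_C, map_mul, C_mul]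
    linear_combination C (algebraMap (𝓞 k) k ca) * C (algebraMap (𝓞 k) k cb) * hab
  have hlc : h.leadingCoeff ≠ 0 := leadingCoeff_ne_zero.mpr hh0
  refine (((finite_mem (two_ne_zero (α := 𝓞 k))).union
    (finite_mem (mul_ne_zero hca0 hcb0))).union (finite_mem hlc)).subset fun v hv => ?_
  by_contra hcon
  simp only [Set.mem_union, Set.mem_setOf_eq, not_or] at hcon
  obtain ⟨⟨h2, hc⟩, hl⟩ := hcon
  apply hv
  letI := Ideal.Quotient.field v.asIdeal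
  refine ⟨h2, ?_, ?_⟩
  · generalize C cb * A = U at key
    generalize C ca * B = V at key
    have h3 := congrArg (Polynomial.map (Ideal.Quotient.mk v.asIdeal)) key
    rw [Polynomial.map_add, Polynomial.map_mul, Polynomial.map_mul, ← derivative_map, map_C] at h3
    have hne : Ideal.Quotient.mk v.asIdeal (ca * cb) ≠ 0 := fun h0 =>
      hc (Ideal.Quotient.eq_zero_iff_mem.mp h0)
    set e := Ideal.Quotient.mk v.asIdeal (ca * cb) with he
    refine ⟨C e⁻¹ * U.map (Ideal.Quotient.mk v.asIdeal),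
      C e⁻¹ * V.map (Ideal.Quotient.mk v.asIdeal), ?_⟩
    have h4 : C e⁻¹ * C e = (1 : (𝓞 k ⧸ v.asIdeal)[X]) := by
      rw [← C_mul, inv_mul_cancel₀ hne, C_1]
    rw [mul_assoc, mul_assoc, ← mul_add, h3, h4]
  · apply natDegree_map_of_leadingCoeff_ne_zero
    exact fun h0 => hl (Ideal.Quotient.eq_zero_iff_mem.mp h0)

section Log

variable {h₁ h₂ : (𝓞 k)[X]} {g₁ g₂ : ℕ}

lemma abs_frobTrace_le (hh₁ : h₁.natDegree = 2 * g₁ + 1) (hh₂ : h₂.natDegree = 2 * g₂ + 1)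
    {v : HeightOneSpectrum (𝓞 k)} (hv₁ : GoodAt h₁ v) (hv₂ : GoodAt h₂ v) {n : ℕ} (hn : 0 < n) :
    |(frobTrace h₁ h₂ v n : ℝ)| ≤ (2 + 4 * g₁ * g₂) * nrm v ^ n := by
  let _ := Ideal.Quotient.field v.asIdeal
  rw [nrm_eq_card]
  exact abs_traceH2_le (F := 𝓞 k ⧸ v.asIdeal) (ringChar_ne_two hv₁.1) (hv₁.2.2.trans hh₁)
    (hv₂.2.2.trans hh₂) hn

lemma frobTrace_one {v : HeightOneSpectrum (𝓞 k)} (hv₁ : GoodAt h₁ v) (hv₂ : GoodAt h₂ v) :
    (frobTrace h₁ h₂ v 1 : ℝ) = (2 + aV h₁ v * aV h₂ v) * nrm v := by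
  let _ := Ideal.Quotient.field v.asIdeal
  unfold frobTrace traceH2 aV
  rw [if_pos hv₁, if_pos hv₂]
  have h1 : Real.sqrt (nrm v) * Real.sqrt (nrm v) = nrm v := Real.mul_self_sqrt (nrm_pos v).le
  have h2 : 0 < Real.sqrt (nrm v) := Real.sqrt_pos.mpr (nrm_pos v)
  have h3 : ((Nat.card (𝓞 k ⧸ v.asIdeal) : ℤ) : ℝ) = nrm v := by
    rw [nrm_eq_card]; rfl
  push_cast at h3 ⊢
  rw [pow_one, h3]
  generalize (traceH1 (𝓞 k ⧸ v.asIdeal) (h₁.map (Ideal.Quotient.mk v.asIdeal)) 1 : ℝ) = A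
  generalize (traceH1 (𝓞 k ⧸ v.asIdeal) (h₂.map (Ideal.Quotient.mk v.asIdeal)) 1 : ℝ) = B
  have h4 : A / Real.sqrt (nrm v) * (B / Real.sqrt (nrm v)) = A * B / nrm v := by
    rw [div_mul_div_comm, h1]
  rw [h4, add_mul, div_mul_cancel₀ _ (nrm_pos v).ne']

open Classical in
/-- logarithm of the local factor -/
def lam (h₁ h₂ : (𝓞 k)[X]) (bad : HeightOneSpectrum (𝓞 k) → Multiset ℂ) (t : ℝ)
    (v : HeightOneSpectrum (𝓞 k)) : ℂ :=
  if GoodAt h₁ v ∧ GoodAt h₂ v then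
    ∑' n : ℕ, (frobTrace h₁ h₂ v (n + 1) : ℂ) * ((nrm v ^ (-(t + 1)) : ℝ) : ℂ) ^ (n + 1) / ((n : ℂ) + 1)
  else ((bad v).map fun α => -Complex.log (1 - α * ((nrm v ^ (-(t + 1)) : ℝ) : ℂ))).sum

lemma rpow_aux (v : HeightOneSpectrum (𝓞 k)) {t : ℝ} (ht : 1 < t) :
    nrm v * nrm v ^ (-(t + 1)) = nrm v ^ (-t) ∧ nrm v ^ (-t) ≤ 1 / 2 ∧ 0 < nrm v ^ (-t) ∧
      (nrm v ^ (-t)) ^ 2 ≤ nrm v ^ (-2 : ℝ) := by
  refine ⟨?_, rpow_neg_le_half k ht.le v, Real.rpow_pos_of_pos (nrm_pos v) _, ?_⟩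
  · rw [neg_add, Real.rpow_add (nrm_pos v), Real.rpow_neg_one]
    have := nrm_pos v
    field_simp
  · rw [← Real.rpow_natCast, ← Real.rpow_mul (nrm_pos v).le]
    exact Real.rpow_le_rpow_of_exponent_le (by linarith [two_le_nrm v]) (by push_cast; linarith)

lemma lam_good (hh₁ : h₁.natDegree = 2 * g₁ + 1) (hh₂ : h₂.natDegree = 2 * g₂ + 1)
    (bad : HeightOneSpectrum (𝓞 k) → Multiset ℂ) {t : ℝ} (ht : 1 < t)
    {v : HeightOneSpectrum (𝓞 k)} (hv₁ : GoodAt h₁ v) (hv₂ : GoodAt h₂ v) :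
    ‖lam h₁ h₂ bad t v - (((2 + aV h₁ v * aV h₂ v) * nrm v ^ (-t) : ℝ) : ℂ)‖ ≤
      2 * (2 + 4 * g₁ * g₂) * nrm v ^ (-2 : ℝ) := by
  obtain ⟨e1, e2, e3, e4⟩ := rpow_aux v ht
  set x : ℝ := nrm v ^ (-(t + 1)) with hx
  set y : ℝ := nrm v ^ (-t) with hy
  have hx0 : 0 ≤ x := (Real.rpow_pos_of_pos (nrm_pos v) _).le
  have hB : (0 : ℝ) ≤ 2 + 4 * g₁ * g₂ := by positivity
  set T : ℕ → ℂ := fun n => (frobTrace h₁ h₂ v (n + 1) : ℂ) * (x : ℂ) ^ (n + 1) / ((n : ℂ) + 1) with hT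
  have hTn : ∀ n, ‖T n‖ ≤ (2 + 4 * g₁ * g₂) * y ^ (n + 1) := by
    intro n
    simp only [hT]
    rw [norm_div, norm_mul, norm_pow, Complex.norm_real, Real.norm_of_nonneg hx0,
      Complex.norm_intCast]
    have h1 := abs_frobTrace_le hh₁ hh₂ hv₁ hv₂ (n := n + 1) (Nat.succ_pos n)
    have h2 : (1 : ℝ) ≤ ‖(n : ℂ) + 1‖ := by
      have : ((n : ℂ) + 1) = ((n + 1 : ℕ) : ℂ) := by push_cast; rfl
      rw [this, Complex.norm_natCast]
      exact_mod_cast Nat.succ_le_succ (Nat.zero_le n)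
    rw [div_le_iff₀ (by linarith)]
    have h3 : |(frobTrace h₁ h₂ v (n + 1) : ℝ)| * x ^ (n + 1) ≤
        ((2 + 4 * g₁ * g₂) * nrm v ^ (n + 1)) * x ^ (n + 1) :=
      mul_le_mul_of_nonneg_right h1 (pow_nonneg hx0 _)
    have h4 : ((2 + 4 * g₁ * g₂) * nrm v ^ (n + 1)) * x ^ (n + 1) =
        (2 + 4 * g₁ * g₂) * y ^ (n + 1) := by
      rw [mul_assoc, ← mul_pow, e1]
    rw [h4] at h3
    have h5 : 0 ≤ (2 + 4 * g₁ * g₂) * y ^ (n + 1) := mul_nonneg hB (pow_nonneg e3.le _)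
    nlinarith
  have hgeo : Summable (fun n : ℕ => (2 + 4 * (g₁ : ℝ) * g₂) * y ^ (n + 1)) := by
    have h1 : Summable (fun n : ℕ => y ^ n) :=
      summable_geometric_of_lt_one e3.le (by linarith)
    have h2 := ((summable_nat_add_iff 1).mpr h1).mul_left (2 + 4 * (g₁ : ℝ) * g₂)
    exact h2
  have hTs : Summable T := Summable.of_norm_bounded hgeo hTn
  have hl : lam h₁ h₂ bad t v = ∑' n, T n := by
    unfold lam
    rw [if_pos ⟨hv₁, hv₂⟩]
  have hT0 : T 0 = (((2 + aV h₁ v * aV h₂ v) * y : ℝ) : ℂ) := by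
    simp only [hT]
    have h1 := frobTrace_one (h₁ := h₁) (h₂ := h₂) hv₁ hv₂
    have h2 : (frobTrace h₁ h₂ v (0 + 1) : ℂ) = (((2 + aV h₁ v * aV h₂ v) * nrm v : ℝ) : ℂ) := by
      rw [zero_add, ← h1]; simp
    rw [h2, ← e1]
    push_cast
    ring
  rw [hl, hTs.tsum_eq_zero_add, hT0, add_sub_cancel_left]
  have hgeo2 : Summable (fun n : ℕ => (2 + 4 * (g₁ : ℝ) * g₂) * y ^ (n + 1 + 1)) :=
    (summable_nat_add_iff 1).mpr hgeo
  have hval : ∑' n : ℕ, (2 + 4 * (g₁ : ℝ) * g₂) * y ^ (n + 1 + 1) =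
      (2 + 4 * (g₁ : ℝ) * g₂) * (y ^ 2 * (1 - y)⁻¹) := by
    rw [tsum_mul_left]
    congr 1
    rw [← tsum_geometric_of_lt_one e3.le (by linarith), ← tsum_mul_left]
    exact tsum_congr fun n => by ring
  refine (tsum_of_norm_bounded hgeo2.hasSum fun n => hTn (n + 1)).trans ?_
  rw [hval]
  have h6 : (1 - y)⁻¹ ≤ 2 := by
    rw [inv_le_comm₀ (by linarith) (by norm_num)]
    linarith
  have h7 : y ^ 2 * (1 - y)⁻¹ ≤ nrm v ^ (-2 : ℝ) * 2 :=
    mul_le_mul e4 h6 (inv_nonneg.mpr (by linarith)) (Real.rpow_nonneg (nrm_pos v).le _)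
  have h8 := mul_le_mul_of_nonneg_left h7 hB
  linarith

lemma lam_bad (hh₁ : h₁.natDegree = 2 * g₁ + 1) (hh₂ : h₂.natDegree = 2 * g₂ + 1)
    {bad : HeightOneSpectrum (𝓞 k) → Multiset ℂ} (hbad : ∀ v, ∀ α ∈ bad v, ‖α‖ ≤ nrm v)
    {t : ℝ} (ht : 1 < t) {v : HeightOneSpectrum (𝓞 k)} (hv : ¬ (GoodAt h₁ v ∧ GoodAt h₂ v)) :
    ‖lam h₁ h₂ bad t v - (((2 + aV h₁ v * aV h₂ v) * nrm v ^ (-t) : ℝ) : ℂ)‖ ≤
      Multiset.card (bad v) + (2 + 4 * g₁ * g₂) := by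
  obtain ⟨e1, e2, e3, e4⟩ := rpow_aux v ht
  set x : ℝ := nrm v ^ (-(t + 1)) with hx
  set y : ℝ := nrm v ^ (-t) with hy
  have hx0 : 0 ≤ x := (Real.rpow_pos_of_pos (nrm_pos v) _).le
  refine (norm_sub_le _ _).trans (add_le_add ?_ ?_)
  · unfold lam
    rw [if_neg hv]
    refine (norm_multiset_sum_le _).trans ?_
    rw [Multiset.map_map]
    have h2 : ((bad v).map (norm ∘ fun α => -Complex.log (1 - α * (x : ℂ)))).sum ≤
        ((bad v).map fun _ => (1 : ℝ)).sum := by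
      apply Multiset.sum_map_le_sum_map
      intro α hα
      have h3 : ‖α * (x : ℂ)‖ ≤ 1 / 2 := by
        rw [norm_mul, Complex.norm_real, Real.norm_of_nonneg hx0]
        calc ‖α‖ * x ≤ nrm v * x := mul_le_mul_of_nonneg_right (hbad v α hα) hx0
          _ = y := e1
          _ ≤ 1 / 2 := e2
      have h4 := log_one_sub_bound h3
      have h5 : ‖-Complex.log (1 - α * (x : ℂ))‖ ≤ ‖α * (x : ℂ)‖ + ‖α * (x : ℂ)‖ ^ 2 := by
        have := norm_add_le (-Complex.log (1 - α * (x : ℂ)) - α * (x : ℂ)) (α * (x : ℂ))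
        rw [sub_add_cancel] at this
        linarith
      simp only [Function.comp_apply]
      have h6 := norm_nonneg (α * (x : ℂ))
      nlinarith
    refine h2.trans ?_
    rw [Multiset.map_const', Multiset.sum_replicate, nsmul_eq_mul, mul_one]
  · rw [Complex.norm_real, Real.norm_eq_abs, abs_mul, abs_of_pos e3]
    have h1 := abs_aV_le hh₁ v
    have h2 := abs_aV_le hh₂ v
    have h3 : |2 + aV h₁ v * aV h₂ v| ≤ 2 + 4 * g₁ * g₂ := by
      refine (abs_add_le _ _).trans ?_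
      rw [abs_mul, abs_two]
      have := mul_le_mul h1 h2 (abs_nonneg _) (by positivity)
      nlinarith
    have h4 : (0 : ℝ) ≤ 2 + 4 * g₁ * g₂ := by positivity
    calc |2 + aV h₁ v * aV h₂ v| * y ≤ (2 + 4 * g₁ * g₂) * 1 :=
          mul_le_mul h3 (by linarith) e3.le h4
      _ = 2 + 4 * g₁ * g₂ := mul_one _

lemma exp_lam {bad : HeightOneSpectrum (𝓞 k) → Multiset ℂ} (hbad : ∀ v, ∀ α ∈ bad v, ‖α‖ ≤ nrm v)
    {t : ℝ} (ht : 1 < t) (v : HeightOneSpectrum (𝓞 k)) [Decidable (GoodAt h₁ v ∧ GoodAt h₂ v)] :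
    Complex.exp (lam h₁ h₂ bad t v) =
      if GoodAt h₁ v ∧ GoodAt h₂ v then
      Complex.exp (∑' n : ℕ, (frobTrace h₁ h₂ v (n + 1) : ℂ) *
        ((Ideal.absNorm v.asIdeal : ℂ) ^ (-((t + 1 : ℝ) : ℂ))) ^ (n + 1) / ((n : ℂ) + 1))
    else
      (((bad v).map fun α => 1 - α * (Ideal.absNorm v.asIdeal : ℂ) ^ (-((t + 1 : ℝ) : ℂ))).prod)⁻¹ := by
  obtain ⟨e1, e2, e3, e4⟩ := rpow_aux v ht
  have hx : ((Ideal.absNorm v.asIdeal : ℂ) ^ (-((t + 1 : ℝ) : ℂ))) = ((nrm v ^ (-(t + 1)) : ℝ) : ℂ) := by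
    unfold nrm
    rw [Complex.ofReal_cpow (by positivity)]
    push_cast
    rfl
  rw [hx]
  have hx0 : 0 ≤ nrm v ^ (-(t + 1)) := (Real.rpow_pos_of_pos (nrm_pos v) _).le
  unfold lam
  split_ifs with h
  · rfl
  · rw [Complex.exp_multiset_sum, Multiset.map_map, ← Multiset.prod_map_inv]
    refine congrArg Multiset.prod (Multiset.map_congr rfl fun α hα => ?_)
    have h3 : ‖α * ((nrm v ^ (-(t + 1)) : ℝ) : ℂ)‖ ≤ 1 / 2 := by
      rw [norm_mul, Complex.norm_real, Real.norm_of_nonneg hx0]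
      calc ‖α‖ * nrm v ^ (-(t + 1)) ≤ nrm v * nrm v ^ (-(t + 1)) :=
            mul_le_mul_of_nonneg_right (hbad v α hα) hx0
        _ = nrm v ^ (-t) := e1
        _ ≤ 1 / 2 := e2
    have hne : (1 : ℂ) - α * ((nrm v ^ (-(t + 1)) : ℝ) : ℂ) ≠ 0 := by
      intro h0
      have h1 : α * ((nrm v ^ (-(t + 1)) : ℝ) : ℂ) = 1 := (sub_eq_zero.mp h0).symm
      rw [h1, norm_one] at h3
      norm_num at h3
    rw [Function.comp_apply, Complex.exp_neg, Complex.exp_log hne]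

/-- The logarithm of the `H²` L-function of `C₁ × C₂` near `s = 2`. -/
theorem log_L2 (hh₁ : h₁.natDegree = 2 * g₁ + 1) (hh₂ : h₂.natDegree = 2 * g₂ + 1)
    (hs₁ : (h₁.map (algebraMap (𝓞 k) k)).Separable) (hs₂ : (h₂.map (algebraMap (𝓞 k) k)).Separable)
    {bad : HeightOneSpectrum (𝓞 k) → Multiset ℂ} (hbad : ∀ v, ∀ α ∈ bad v, ‖α‖ ≤ nrm v) :
    ∃ C : ℝ, ∀ t : ℝ, 1 < t → |Real.log ‖L2 h₁ h₂ bad ((t + 1 : ℝ) : ℂ)‖ -
      wsum (fun v => 2 + aV h₁ v * aV h₂ v) t| ≤ C := by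
  classical
  have hfin : {v : HeightOneSpectrum (𝓞 k) | ¬ (GoodAt h₁ v ∧ GoodAt h₂ v)}.Finite := by
    refine ((finite_bad hs₁).union (finite_bad hs₂)).subset fun v hv => ?_
    by_cases h : GoodAt h₁ v
    · right; exact fun h' => hv ⟨h, h'⟩
    · left; exact h
  let M : HeightOneSpectrum (𝓞 k) → ℝ := fun v =>
    2 * (2 + 4 * g₁ * g₂) * nrm v ^ (-2 : ℝ) +
      if v ∈ hfin.toFinset then (Multiset.card (bad v) + (2 + 4 * g₁ * g₂) : ℝ) else 0
  have hMsum : Summable M := by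
    refine Summable.add ((summable_nrm (by norm_num)).mul_left _) ?_
    exact summable_of_ne_finset_zero (s := hfin.toFinset) (fun P hP => if_neg hP)
  refine ⟨∑' v, M v, fun t ht => ?_⟩
  set u : HeightOneSpectrum (𝓞 k) → ℝ := fun v => 2 + aV h₁ v * aV h₂ v with hu
  have hub : Bdd u := (Bdd.const 2).add ((aV_bdd hh₁).mul (aV_bdd hh₂))
  have hbound : ∀ v, ‖lam h₁ h₂ bad t v - ((u v * nrm v ^ (-t) : ℝ) : ℂ)‖ ≤ M v := by
    intro v
    have hpos : 0 ≤ 2 * (2 + 4 * (g₁ : ℝ) * g₂) * nrm v ^ (-2 : ℝ) :=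
      mul_nonneg (by positivity) (Real.rpow_nonneg (nrm_pos v).le _)
    by_cases h : GoodAt h₁ v ∧ GoodAt h₂ v
    · refine (lam_good hh₁ hh₂ bad ht h.1 h.2).trans ?_
      have hnm : v ∉ hfin.toFinset := by
        rw [Set.Finite.mem_toFinset]
        exact fun hn => hn h
      simp only [M, if_neg hnm, add_zero, le_refl]
    · refine (lam_bad hh₁ hh₂ hbad ht h).trans ?_
      have hm : v ∈ hfin.toFinset := by
        rw [Set.Finite.mem_toFinset]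
        exact h
      simp only [M, if_pos hm]
      linarith
  have hsum1 : Summable (fun v => ((u v * nrm v ^ (-t) : ℝ) : ℂ)) :=
    Complex.ofRealCLM.summable (hub.summable ht)
  have hsum2 : Summable (fun v => lam h₁ h₂ bad t v - ((u v * nrm v ^ (-t) : ℝ) : ℂ)) :=
    Summable.of_norm_bounded hMsum hbound
  have hsuml : Summable (lam h₁ h₂ bad t) := by
    have := hsum2.add hsum1
    refine this.congr fun v => by ring
  have hprod : L2 h₁ h₂ bad ((t + 1 : ℝ) : ℂ) = Complex.exp (∑' v, lam h₁ h₂ bad t v) := by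
    unfold L2
    rw [← (hsuml.hasSum.cexp).tprod_eq]
    exact tprod_congr fun v => (exp_lam hbad ht v).symm
  rw [hprod, Complex.norm_exp, Real.log_exp]
  have hw : wsum u t = (∑' v, ((u v * nrm v ^ (-t) : ℝ) : ℂ)).re := by
    rw [Complex.re_tsum hsum1]
    unfold wsum
    exact tsum_congr fun v => (Complex.ofReal_re _).symm
  rw [hw, ← Complex.sub_re, ← hsuml.tsum_sub hsum1]
  refine (Complex.abs_re_le_norm _).trans ?_
  refine (norm_tsum_le_tsum_norm hsum2.norm).trans ?_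
  exact hsum2.norm.tsum_le_tsum hbound hMsum

end Log

end

end Pool.Agent.H1.Tate
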