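import Pool.Agent.H1.Tate.Twist

/-!
# Sanity checks for the definitions: the Euler product converges for `Re s > 2`
-/

open NumberField IsDedekindDomain Filter Topology Polynomial

namespace Pool.Agent.H1.Tate

open Pool.Agent.H3.TatePole Pool.Agent.H1.Weil

noncomputable section

variable {k : Type*} [Field k] [NumberField k] {h₁ h₂ : (𝓞 k)[X]} {g₁ g₂ : ℕ}

open Classical in
/-- the Euler product defining `L2` converges (unconditionally) for `Re s > 2` -/
theorem multipliable_L2 (hh₁ : h₁.natDegree = 2 * g₁ + 1) (hh₂ : h₂.natDegree = 2 * g₂ + 1)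
    (hs₁ : (h₁.map (algebraMap (𝓞 k) k)).Separable) (hs₂ : (h₂.map (algebraMap (𝓞 k) k)).Separable)
    (bad : HeightOneSpectrum (𝓞 k) → Multiset ℂ) {s : ℂ} (hs : 2 < s.re) :
    Multipliable (fun v : HeightOneSpectrum (𝓞 k) => if GoodAt h₁ v ∧ GoodAt h₂ v then
      Complex.exp (∑' n : ℕ, (frobTrace h₁ h₂ v (n + 1) : ℂ) *
        ((Ideal.absNorm v.asIdeal : ℂ) ^ (-s)) ^ (n + 1) / ((n : ℂ) + 1))
    else
      (((bad v).map fun α => 1 - α * (Ideal.absNorm v.asIdeal : ℂ) ^ (-s)).prod)⁻¹) := by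
  have hfin : {v : HeightOneSpectrum (𝓞 k) | ¬ (GoodAt h₁ v ∧ GoodAt h₂ v)}.Finite := by
    refine ((finite_bad hs₁).union (finite_bad hs₂)).subset fun v hv => ?_
    by_cases h : GoodAt h₁ v
    · right; exact fun h' => hv ⟨h, h'⟩
    · left; exact h
  let lamC : HeightOneSpectrum (𝓞 k) → ℂ := fun v => if GoodAt h₁ v ∧ GoodAt h₂ v then
    ∑' n : ℕ, (frobTrace h₁ h₂ v (n + 1) : ℂ) *
        ((Ideal.absNorm v.asIdeal : ℂ) ^ (-s)) ^ (n + 1) / ((n : ℂ) + 1) else 0
  have hlam : ∀ v, ‖lamC v‖ ≤ 2 * (2 + 4 * g₁ * g₂) * nrm v ^ (-(s.re - 1)) := by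
    intro v
    have hq := nrm_pos v
    have hpos : 0 ≤ 2 * (2 + 4 * (g₁ : ℝ) * g₂) * nrm v ^ (-(s.re - 1)) :=
      mul_nonneg (by positivity) (Real.rpow_nonneg hq.le _)
    by_cases h : GoodAt h₁ v ∧ GoodAt h₂ v
    · simp only [lamC, if_pos h]
      have hx : ‖(Ideal.absNorm v.asIdeal : ℂ) ^ (-s)‖ = nrm v ^ (-s.re) := by
        rw [Complex.norm_natCast_cpow_of_pos (by
          have := one_lt_absNorm k v
          omega)]
        rfl
      set x := (Ideal.absNorm v.asIdeal : ℂ) ^ (-s) with hxd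
      set y : ℝ := nrm v * nrm v ^ (-s.re) with hy
      have hy2 : y = nrm v ^ (-(s.re - 1)) := by
        rw [hy, neg_sub, Real.rpow_sub hq, Real.rpow_one, Real.rpow_neg hq.le]
        rfl
      have hyle : y ≤ 1 / 2 := by
        rw [hy2]
        exact rpow_neg_le_half k (by linarith) v
      have hy0 : 0 < y := by rw [hy2]; exact Real.rpow_pos_of_pos hq _
      have hB : (0 : ℝ) ≤ 2 + 4 * g₁ * g₂ := by positivity
      have hTn : ∀ n : ℕ, ‖(frobTrace h₁ h₂ v (n + 1) : ℂ) * x ^ (n + 1) / ((n : ℂ) + 1)‖ ≤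
          (2 + 4 * g₁ * g₂) * y ^ (n + 1) := by
        intro n
        rw [norm_div, norm_mul, norm_pow, hx, Complex.norm_intCast]
        have h1 := abs_frobTrace_le hh₁ hh₂ h.1 h.2 (n := n + 1) (Nat.succ_pos n)
        have h2 : (1 : ℝ) ≤ ‖(n : ℂ) + 1‖ := by
          have : ((n : ℂ) + 1) = ((n + 1 : ℕ) : ℂ) := by push_cast; rfl
          rw [this, Complex.norm_natCast]
          exact_mod_cast Nat.succ_le_succ (Nat.zero_le n)
        rw [div_le_iff₀ (by linarith)]
        have hx0 : 0 ≤ nrm v ^ (-s.re) := Real.rpow_nonneg hq.le _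
        have h3 : |(frobTrace h₁ h₂ v (n + 1) : ℝ)| * (nrm v ^ (-s.re)) ^ (n + 1) ≤
            ((2 + 4 * g₁ * g₂) * nrm v ^ (n + 1)) * (nrm v ^ (-s.re)) ^ (n + 1) :=
          mul_le_mul_of_nonneg_right h1 (pow_nonneg hx0 _)
        have h4 : ((2 + 4 * g₁ * g₂) * nrm v ^ (n + 1)) * (nrm v ^ (-s.re)) ^ (n + 1) =
            (2 + 4 * g₁ * g₂) * y ^ (n + 1) := by
          rw [mul_assoc, ← mul_pow]
        rw [h4] at h3
        have h5 : 0 ≤ (2 + 4 * g₁ * g₂) * y ^ (n + 1) := mul_nonneg hB (pow_nonneg hy0.le _)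
        nlinarith
      have h1 : Summable (fun n : ℕ => y ^ n) :=
        summable_geometric_of_lt_one hy0.le (by linarith)
      have hgeo : Summable (fun n : ℕ => (2 + 4 * (g₁ : ℝ) * g₂) * y ^ (n + 1)) :=
        ((summable_nat_add_iff 1).mpr h1).mul_left (2 + 4 * (g₁ : ℝ) * g₂)
      refine (tsum_of_norm_bounded hgeo.hasSum hTn).trans ?_
      have hval : ∑' n : ℕ, (2 + 4 * (g₁ : ℝ) * g₂) * y ^ (n + 1) =
          (2 + 4 * (g₁ : ℝ) * g₂) * (y * (1 - y)⁻¹) := by
        rw [tsum_mul_left]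
        congr 1
        rw [← tsum_geometric_of_lt_one hy0.le (by linarith), ← tsum_mul_left]
        exact tsum_congr fun n => by ring
      rw [hval, ← hy2]
      have h6 : (1 - y)⁻¹ ≤ 2 := by
        rw [inv_le_comm₀ (by linarith) (by norm_num)]
        linarith
      have h7 : y * (1 - y)⁻¹ ≤ y * 2 := mul_le_mul_of_nonneg_left h6 hy0.le
      have h8 := mul_le_mul_of_nonneg_left h7 hB
      linarith
    · simp only [lamC, if_neg h, norm_zero]
      exact hpos
  have hsum : Summable lamC :=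
    Summable.of_norm_bounded ((summable_nrm (by linarith : 1 < s.re - 1)).mul_left _) hlam
  have h1 := hsum.hasSum.cexp.multipliable
  have h2 : Multipliable (fun v : HeightOneSpectrum (𝓞 k) => if GoodAt h₁ v ∧ GoodAt h₂ v then 1
      else (((bad v).map fun α => 1 - α * (Ideal.absNorm v.asIdeal : ℂ) ^ (-s)).prod)⁻¹) := by
    refine (hasProd_prod_of_ne_finset_one (s := hfin.toFinset) fun v hv => ?_).multipliable
    rw [Set.Finite.mem_toFinset] at hv
    exact if_pos (not_not.mp hv)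
  refine (h1.mul h2).congr fun v => ?_
  simp only [Function.comp_apply, lamC]
  split_ifs <;> simp

end

end Pool.Agent.H1.Tate
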