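import Pool.Agent.H1.Tate.LFun
import Pool.Agent.H1.Tate.Bessel

/-!
# Quadratic twists
-/

open NumberField IsDedekindDomain Filter Topology Polynomial

namespace Pool.Agent.H1.Tate

open Pool.Agent.H3.TatePole Pool.Agent.H1.Weil

noncomputable section

variable {k : Type*} [Field k] [NumberField k]

lemma goodAt_twist {f : (𝓞 k)[X]} {d : 𝓞 k} {v : HeightOneSpectrum (𝓞 k)} (hf : GoodAt f v)
    (hd : d ∉ v.asIdeal) : GoodAt (C d * f) v := by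
  let _ := Ideal.Quotient.field v.asIdeal
  have hd' : Ideal.Quotient.mk v.asIdeal d ≠ 0 := fun h => hd (Ideal.Quotient.eq_zero_iff_mem.mp h)
  have hd0 : d ≠ 0 := by
    rintro rfl
    exact hd v.asIdeal.zero_mem
  refine ⟨hf.1, ?_, ?_⟩
  · rw [Polynomial.map_mul, map_C]
    have hu : IsUnit (C (Ideal.Quotient.mk v.asIdeal d) : (𝓞 k ⧸ v.asIdeal)[X]) :=
      (isUnit_iff_ne_zero.mpr hd').map C
    exact Polynomial.Separable.unit_mul hu hf.2.1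
  · rw [Polynomial.map_mul, map_C, natDegree_C_mul hd', natDegree_C_mul hd0, hf.2.2]

lemma aV_twist {f : (𝓞 k)[X]} {d : 𝓞 k} {v : HeightOneSpectrum (𝓞 k)} (hf : GoodAt f v)
    (hd : d ∉ v.asIdeal) : aV (C d * f) v = chiV d v * aV f v := by
  classical
  let _ := Ideal.Quotient.field v.asIdeal
  let _ := Fintype.ofFinite (𝓞 k ⧸ v.asIdeal)
  have hd' : Ideal.Quotient.mk v.asIdeal d ≠ 0 := fun h => hd (Ideal.Quotient.eq_zero_iff_mem.mp h)
  have h1 := traceH1_C_mul (F := 𝓞 k ⧸ v.asIdeal) (ringChar_ne_two hf.1)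
    (h := f.map (Ideal.Quotient.mk v.asIdeal)) hd' (n := 1) one_pos
  rw [pow_one] at h1
  rw [chiV_of_notMem hf.1]
  unfold aV
  rw [if_pos (goodAt_twist hf hd), if_pos hf, Polynomial.map_mul, map_C]
  rw [h1]
  push_cast
  rw [mul_div_assoc]

lemma separable_twist {f : (𝓞 k)[X]} (hf : (f.map (algebraMap (𝓞 k) k)).Separable) {d : 𝓞 k}
    (hd : d ≠ 0) : ((C d * f).map (algebraMap (𝓞 k) k)).Separable := by
  have hd' : algebraMap (𝓞 k) k d ≠ 0 := by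
    intro h
    apply hd
    exact RingOfIntegers.coe_injective (by rw [h]; simp)
  rw [Polynomial.map_mul, map_C]
  exact Polynomial.Separable.unit_mul ((isUnit_iff_ne_zero.mpr hd').map C) hf

lemma chiV_orth {D : Finset (𝓞 k)} (hD0 : ∀ d ∈ D, d ≠ 0)
    (hD : ∀ d ∈ D, ∀ d' ∈ D, d ≠ d' → ¬ IsSquare (algebraMap (𝓞 k) k (d * d')))
    [DecidableEq (𝓞 k)] :
    ∀ d ∈ D, ∀ d' ∈ D, HasMean (𝓝[>] 1)
      (fun v : HeightOneSpectrum (𝓞 k) => (chiV d v : ℝ) * chiV d' v) (if d = d' then 1 else 0) := by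
  intro d hd d' hd'
  split_ifs with h
  · subst h
    refine hasMean_congr (Bdd.const 1) ((chiV_bdd d).mul (chiV_bdd d)) ?_ hasMean_one
    refine ((finite_mem (two_ne_zero (α := 𝓞 k))).union (finite_mem (hD0 d hd))).subset
      fun v hv => ?_
    by_contra hcon
    simp only [Set.mem_union, Set.mem_ofPred_eq, not_or] at hcon
    apply hv
    have h1 := chiV_sq hcon.1 hcon.2
    have h2 : (chiV d v : ℝ) ^ 2 = 1 := by exact_mod_cast h1
    change (1 : ℝ) = (chiV d v : ℝ) * chiV d v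
    rw [← sq, h2]
  · have h1 := chiV_mean (hD d hd d' hd' h)
    refine (funext fun v => ?_ : (fun v : HeightOneSpectrum (𝓞 k) => (chiV (d * d') v : ℝ)) =
      (fun v => (chiV d v : ℝ) * chiV d' v)) ▸ h1
    rw [chiV_mul]
    push_cast
    rfl

section Main

variable {f g : (𝓞 k)[X]} {g₁ g₂ : ℕ}

/-- the logarithm of `L₂(s, C_f^(d) × C_g)` is `2` plus a character mean, to first order -/
lemma log_twist (hf : f.natDegree = 2 * g₁ + 1) (hg : g.natDegree = 2 * g₂ + 1)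
    (hsf : (f.map (algebraMap (𝓞 k) k)).Separable) (hsg : (g.map (algebraMap (𝓞 k) k)).Separable)
    {d : 𝓞 k} (hd : d ≠ 0) {bad : HeightOneSpectrum (𝓞 k) → Multiset ℂ}
    (hbad : ∀ v, ∀ α ∈ bad v, ‖α‖ ≤ nrm v) :
    Tendsto (fun t : ℝ => (Real.log ‖L2 (C d * f) g bad ((t + 1 : ℝ) : ℂ)‖ / Lam t - 2) -
      wsum (fun v => (aV f v * aV g v) * (chiV d v : ℝ)) t / Lam t) (𝓝[>] 1) (𝓝 0) := by
  have hdeg : (C d * f).natDegree = 2 * g₁ + 1 := by rw [natDegree_C_mul hd, hf]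
  obtain ⟨C₁, hC₁⟩ := log_L2 hdeg hg (separable_twist hsf hd) hsg hbad
  have hb1 : Bdd (fun v => 2 + aV (C d * f) v * aV g v) :=
    (Bdd.const 2).add ((aV_bdd hdeg).mul (aV_bdd hg))
  have hb2 : Bdd (fun v => (aV f v * aV g v) * (chiV d v : ℝ)) :=
    ((aV_bdd hf).mul (aV_bdd hg)).mul (chiV_bdd d)
  have hb3 : Bdd (fun v => 2 + (aV f v * aV g v) * (chiV d v : ℝ)) := (Bdd.const 2).add hb2
  have hfin : {v : HeightOneSpectrum (𝓞 k) | (2 + aV (C d * f) v * aV g v : ℝ) ≠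
      2 + (aV f v * aV g v) * (chiV d v : ℝ)}.Finite := by
    refine ((finite_bad hsf).union (finite_mem hd)).subset fun v hv => ?_
    by_contra hcon
    simp only [Set.mem_union, Set.mem_ofPred_eq, not_or, not_not] at hcon
    apply hv
    rw [aV_twist hcon.1 hcon.2]
    ring
  obtain ⟨C₂, hC₂⟩ := wsum_close hb1 hb3 hfin
  have h1 : ∀ t : ℝ, 1 < t → |Real.log ‖L2 (C d * f) g bad ((t + 1 : ℝ) : ℂ)‖ -
      wsum (fun v => 2 + (aV f v * aV g v) * (chiV d v : ℝ)) t| ≤ C₁ + C₂ := by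
    intro t ht
    have := abs_sub_le (Real.log ‖L2 (C d * f) g bad ((t + 1 : ℝ) : ℂ)‖)
      (wsum (fun v => 2 + aV (C d * f) v * aV g v) t)
      (wsum (fun v => 2 + (aV f v * aV g v) * (chiV d v : ℝ)) t)
    linarith [hC₁ t ht, hC₂ t ht]
  have h2 := tendsto_zero_of_bounded h1
  have h3 : Tendsto (fun t => wsum (fun _ : HeightOneSpectrum (𝓞 k) => (1 : ℝ)) t / Lam t)
    (𝓝[>] 1) (𝓝 1) := hasMean_one
  have h4 := h2.add ((h3.sub_const 1).const_mul 2)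
  simp only [sub_self, mul_zero, add_zero] at h4
  refine h4.congr' ?_
  filter_upwards [self_mem_nhdsWithin] with t ht
  have ht' : 1 < t := ht
  have h5 : wsum (fun v => 2 + (aV f v * aV g v) * (chiV d v : ℝ)) t =
      2 * wsum (fun _ : HeightOneSpectrum (𝓞 k) => (1 : ℝ)) t +
        wsum (fun v => (aV f v * aV g v) * (chiV d v : ℝ)) t := by
    rw [wsum_add (Bdd.const 2) hb2 ht', ← wsum_const_mul]
    simp
  rw [h5]
  ring

/-- mean square statement, in the variable `t = s - 1` -/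
theorem mean_square (hf : f.natDegree = 2 * g₁ + 1) (hg : g.natDegree = 2 * g₂ + 1)
    (hsf : (f.map (algebraMap (𝓞 k) k)).Separable) (hsg : (g.map (algebraMap (𝓞 k) k)).Separable)
    {D : Finset (𝓞 k)} (hD0 : ∀ d ∈ D, d ≠ 0)
    (hD : ∀ d ∈ D, ∀ d' ∈ D, d ≠ d' → ¬ IsSquare (algebraMap (𝓞 k) k (d * d')))
    {bad : 𝓞 k → HeightOneSpectrum (𝓞 k) → Multiset ℂ}
    (hbad : ∀ d ∈ D, ∀ v, ∀ α ∈ bad d v, ‖α‖ ≤ nrm v) {ε : ℝ} (hε : 0 < ε) :
    ∀ᶠ t in 𝓝[>] 1, ∑ d ∈ D, (Real.log ‖L2 (C d * f) g (bad d) ((t + 1 : ℝ) : ℂ)‖ / Lam t - 2) ^ 2 ≤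
      (4 * g₁ * g₂ : ℝ) ^ 2 + ε := by
  classical
  refine bessel_eventually D (e := fun d v => (chiV d v : ℝ)) (y := fun v => aV f v * aV g v)
    (x := fun d t => Real.log ‖L2 (C d * f) g (bad d) ((t + 1 : ℝ) : ℂ)‖ / Lam t - 2)
    (fun d _ => chiV_bdd d) (chiV_orth hD0 hD) ?_ ?_ hε
  · intro v
    rw [abs_mul]
    have := mul_le_mul (abs_aV_le hf v) (abs_aV_le hg v) (abs_nonneg _) (by positivity)
    nlinarith
  · intro d hd
    exact log_twist hf hg hsf hsg (hD0 d hd) (hbad d hd)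

/-- the same in the variable `s` -/
theorem mean_square' (hf : f.natDegree = 2 * g₁ + 1) (hg : g.natDegree = 2 * g₂ + 1)
    (hsf : (f.map (algebraMap (𝓞 k) k)).Separable) (hsg : (g.map (algebraMap (𝓞 k) k)).Separable)
    {D : Finset (𝓞 k)} (hD0 : ∀ d ∈ D, d ≠ 0)
    (hD : ∀ d ∈ D, ∀ d' ∈ D, d ≠ d' → ¬ IsSquare (algebraMap (𝓞 k) k (d * d')))
    {bad : 𝓞 k → HeightOneSpectrum (𝓞 k) → Multiset ℂ}
    (hbad : ∀ d ∈ D, ∀ v, ∀ α ∈ bad d v, ‖α‖ ≤ Ideal.absNorm v.asIdeal) {ε : ℝ} (hε : 0 < ε) :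
    ∀ᶠ s : ℝ in 𝓝[>] 2, ∑ d ∈ D, (Real.log ‖L2 (C d * f) g (bad d) (s : ℂ)‖ /
      Real.log (1 / (s - 2)) - 2) ^ 2 ≤ (4 * g₁ * g₂ : ℝ) ^ 2 + ε := by
  have h1 := mean_square hf hg hsf hsg hD0 hD hbad hε
  have hmap : Tendsto (fun s : ℝ => s - 1) (𝓝[>] 2) (𝓝[>] 1) := by
    rw [tendsto_nhdsWithin_iff]
    constructor
    · have : Tendsto (fun s : ℝ => s - 1) (𝓝 2) (𝓝 (2 - 1)) := tendsto_id.sub_const 1
      norm_num at this
      exact this.mono_left nhdsWithin_le_nhds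
    · filter_upwards [self_mem_nhdsWithin] with s hs
      have : (2 : ℝ) < s := hs
      simp only [Set.mem_Ioi]
      linarith
  filter_upwards [hmap.eventually h1] with s hs
  have e1 : (s - 1 : ℝ) + 1 = s := by ring
  have e2 : Lam (s - 1) = Real.log (1 / (s - 2)) := by
    unfold Lam
    rw [show s - 1 - 1 = s - 2 by ring]
  rw [e1, e2] at hs
  exact hs

/-- pole orders -/
theorem pole_orders (hf : f.natDegree = 2 * g₁ + 1) (hg : g.natDegree = 2 * g₂ + 1)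
    (hsf : (f.map (algebraMap (𝓞 k) k)).Separable) (hsg : (g.map (algebraMap (𝓞 k) k)).Separable)
    {D : Finset (𝓞 k)} (hD0 : ∀ d ∈ D, d ≠ 0)
    (hD : ∀ d ∈ D, ∀ d' ∈ D, d ≠ d' → ¬ IsSquare (algebraMap (𝓞 k) k (d * d')))
    {bad : 𝓞 k → HeightOneSpectrum (𝓞 k) → Multiset ℂ}
    (hbad : ∀ d ∈ D, ∀ v, ∀ α ∈ bad d v, ‖α‖ ≤ Ideal.absNorm v.asIdeal) {r : 𝓞 k → ℤ}
    (hr : ∀ d ∈ D, HasPole (L2 (C d * f) g (bad d)) 2 (r d)) :
    ∑ d ∈ D, (r d - 2) ^ 2 ≤ (4 * g₁ * g₂ : ℤ) ^ 2 := by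
  have h1 : Tendsto (fun t : ℝ => ∑ d ∈ D, (Real.log ‖L2 (C d * f) g (bad d) ((t + 1 : ℝ) : ℂ)‖ /
      Lam t - 2) ^ 2) (𝓝[>] 1) (𝓝 (∑ d ∈ D, ((r d : ℝ) - 2) ^ 2)) :=
    tendsto_finsetSum D fun d hd => ((HasPoleOfOrder.tendsto (hr d hd)).sub_const 2).pow 2
  have h2 : ∀ ε : ℝ, 0 < ε → ∑ d ∈ D, ((r d : ℝ) - 2) ^ 2 ≤ (4 * g₁ * g₂ : ℝ) ^ 2 + ε :=
    fun ε hε => le_of_tendsto h1 (mean_square hf hg hsf hsg hD0 hD hbad hε)
  have h3 := le_of_forall_pos_le_add h2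
  exact_mod_cast h3

end Main

end

end Pool.Agent.H1.Tate
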